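import Mathlib
import Pool.Agent.X317.CF.Hg

/-!
# MP_7b1404_lc: higher dominating numbers
-/

set_option autoImplicit false
set_option linter.all false

namespace Pool.Agent.Results.MP_7b1404_lc.TwoRelations

open Pool.Agent.X317.CF

/-- ZFC proves `𝔡(R_∅) = 𝔡^𝔠_{𝔟(R)}` (with `𝔟(R) ≤ 𝔠`) for `R = ≤*` and for `R = ∈*`. -/
theorem result :
    (bRel leS ≤ Cardinal.continuum ∧ dRel leS = dLK Cardinal.continuum (bRel leS)) ∧
    (bRel inS ≤ Cardinal.continuum ∧ dRel inS = dLK Cardinal.continuum (bRel inS)) :=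
  ⟨⟨bb_le, eq_leS⟩, ⟨rel_le inS mk_NN inS_ex, eq_inS⟩⟩

end Pool.Agent.Results.MP_7b1404_lc.TwoRelations
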